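import Mathlib
import Pool.Agent.Lib.MP_37c606_ag.Main
import Pool.Agent.Lib.MP_37c606_ag.Final

/-!
# Fibres of generic projections need not be smoothable

The variety is the intersection `X ⊂ ℙ^575` of the sixteen diagonal quadrics
`∑ᵢ iʲ Xᵢ² = 0` (`0 ≤ j < 16`), of dimension `559`; it is projected to `ℙ^569` from a general
`5`-dimensional linear space, and we consider the fibres of length `12`.
-/

set_option autoImplicit false

open MvPolynomial

namespace Pool.Agent.Results.MP_37c606_ag.NonsmoothableFibres

open Pool.Agent.MP37c606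

/-- There are a smooth irreducible projective variety `X ⊂ ℙ^N` of dimension `n`, an integer `m`
with `n ≤ m < N` and an integer `k ≥ 1` such that, for a general centre `Λ = ℙ(span V)` of
dimension `N - m - 1` (namely, for all families `V` of `N - m` vectors outside of the zero set of
some non-zero polynomial `P` in their coordinates):
* the family `V` is linearly independent and `Λ ∩ X = ∅`, so that the projection
  `π_Λ : X → ℙ^m` is defined;
* `π_Λ` has a fibre of length `k`;
* no fibre of `π_Λ` of length `k` is smoothable. -/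
theorem result :
    ∃ (N n m k : ℕ) (I : Ideal (MvPolynomial (Fin (N + 1)) ℂ)),
      IsSmoothProjVariety N n I ∧ n ≤ m ∧ m < N ∧ 0 < k ∧
      ∃ P : MvPolynomial (Fin (N - m) × Fin (N + 1)) ℂ, P ≠ 0 ∧
        ∀ V : Fin (N - m) → Fin (N + 1) → ℂ, eval (fun q => V q.1 q.2) P ≠ 0 →
          LinearIndependent ℂ V ∧
          (∀ x ∈ Submodule.span ℂ (Set.range V), (∀ f ∈ I, eval x f = 0) → x = 0) ∧
          (∃ w ∉ Submodule.span ℂ (Set.range V), Module.finrank ℂ (FibreRing I V w) = k) ∧
          ∀ w ∉ Submodule.span ℂ (Set.range V), Module.finrank ℂ (FibreRing I V w) = k →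
            ¬ IsSmoothable (FibreRing I V w) := by
  refine ⟨575, 559, 569, 12, fermatIdeal 16 lam₀, isSmoothProjVariety, by norm_num, by norm_num,
    by norm_num, ?_⟩
  obtain ⟨P, hP0, hP⟩ := main_aux lam₀ lam₀_injective (by simp)
  refine ⟨P, hP0, fun V hV => ?_⟩
  obtain ⟨h1, h2, h3, h4⟩ := hP V hV
  exact ⟨h1, h2, h3, fun w _ hw => h4 w hw⟩

end Pool.Agent.Results.MP_37c606_ag.NonsmoothableFibres
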